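import Pool.Agent.Q68.MF.Scale

/-!
The second outcome of the minimal model program: the main theorem.
-/

set_option autoImplicit false
set_option linter.overlappingInstances false
set_option linter.unusedSectionVars false
set_option maxHeartbeats 1000000

open FF MvPolynomial Pool.Agent.W602.GT Pool.Agent.Q57.TP Pool.Agent.Q57.GM Pool.Agent.Q57.FG
open Pool.Agent.Q57.GG Pool.Agent.Q57.GC Pool.Agent.Q57.UG

namespace Pool.Agent.Q68.MF

theorem numLe_smul {p N : ℕ} {K : Type} [Field K] [Algebra ℂ K] {δ : Fin p → Place ℂ K → ℚ}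
    {μ : Fin p →₀ ℕ} {k : ℕ} (h : NumLeU N δ μ k) {c : ℕ} (hc : 1 ≤ c) :
    NumLeU N δ (c • μ) k := by
  intro S
  obtain ⟨C, hC⟩ := h S
  refine ⟨C * c ^ k, fun m M0 hm hex => ?_⟩
  obtain ⟨ω, h1, h2⟩ := hex
  have h3 := hC (m * c) M0 (Nat.mul_pos hm hc) ⟨ω, h1, fun l => by
    rw [mul_smul]
    exact h2 l⟩
  rw [mul_pow] at h3
  calc M0 ≤ C * (m ^ k * c ^ k) := h3
    _ = C * c ^ k * m ^ k := by ring

variable {r N : ℕ} {n : Fin r → ℕ}

/-- **The main theorem.** -/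
theorem main_mf (hn : ∀ i, 1 ≤ n i) (hN1 : 1 ≤ N) (hN : N = ∑ i, n i) {dg : Hyp n → ℕ}
    (hd : ∀ b, 1 ≤ dg b) (κ : Fin r → ℤ) {ψ : Fin 2 → (Hyp n → ℕ) → ℚ}
    (hψ : ∃ T, PL ψ T) :
    ∃ (T : ℕ) (Θ : Finset ℚ), 1 ≤ T ∧
      ∀ (K : Type) [Field K] [Algebra ℂ K] [Algebra.EssFiniteType ℂ K] (M : Fin r → ℕ)
        (F : ∀ b : Hyp n, MvPolynomial (Fin (M b.1 + 1)) ℂ) (x : ∀ i, Fin (M i + 1) → K)
        (Ω : (Fin N → Derivation ℂ K K) → K) (δ : Fin 2 → Place ℂ K → ℚ),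
        (∀ b, (F b).IsHomogeneous (dg b)) → (∀ i j, x i j ≠ 0) → NoZ F x →
        IsTranscendenceBasis ℂ (rat F dg x) → IsPluri 1 Ω → Ω ≠ 0 →
        (∀ i P, δ i P = 1 - ψ i (mulU F dg x P) - lDU F dg κ x Ω P) →
        ¬ PsefR N δ (pth 0) → PsefR N δ (pth 1) →
        ∃ τ ∈ Θ, 0 < τ ∧ τ ≤ 1 ∧
          (∀ t : ℝ, 0 ≤ t → t ≤ 1 → (PsefR N δ (pth t) ↔ (τ : ℝ) ≤ t)) ∧
          (∃ μ : Fin 2 →₀ ℕ, (μ 0 : ℚ) = T * (1 - τ) ∧ (μ 1 : ℚ) = T * τ ∧ ∃ k, k < N ∧
            ImGe N δ μ k ∧ NumLeU N δ μ k) ∧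
          ∀ (P : Place ℂ K) (D : Fin N → Derivation ℂ K K),
            (∃ (S : Finset K) (μ : Fin 2 →₀ ℕ) (j : ℕ) (η : (Fin N → Derivation ℂ K K) → K),
              μ ≠ 0 ∧ ASec N δ S μ j η ∧ η D ≠ 0) →
            ∃ σ : ℝ → ℝ,
              (∀ t : ℝ, (τ : ℝ) ≤ t → t ≤ 1 → AsOrd N δ P D (pth t) (σ t)) ∧
              (∀ s x t : ℝ, (τ : ℝ) ≤ s → s ≤ x → x ≤ t → t ≤ 1 →
                (∀ θ ∈ Θ, ¬ (s < θ ∧ (θ : ℝ) < t)) →
                  (t - s) * σ x = (t - x) * σ s + (x - s) * σ t) ∧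
              ∀ a b : ℕ, 1 ≤ a + b → (τ : ℝ) * (a + b) ≤ b →
                ∃ μ : Fin 2 →₀ ℕ, μ 0 = T * a ∧ μ 1 = T * b ∧ ∃ η, MSec N δ μ η ∧ η D ≠ 0 ∧
                  (P.ord (η D) : ℝ) = T * (a + b) * σ (b / (a + b)) := by
  classical
  obtain ⟨N0, g, s, h, T0, hg0, hT0, H⟩ := top_u hn hN1 hN hd κ hψ
  obtain ⟨T1, hT1, H1⟩ := top_k hn hN1 hN hd κ hψ
  obtain ⟨q, hq, hqd⟩ : ∃ q : ℕ, 1 ≤ q ∧ ∀ θ ∈ thr (shf h), θ.den ∣ q :=
    ⟨∏ θ ∈ thr (shf h), θ.den, Nat.succ_le_of_lt (Finset.prod_pos fun (θ : ℚ) _ => θ.den_pos),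
      fun θ hθ => Finset.dvd_prod_of_mem _ hθ⟩
  refine ⟨T1 * (T0 * q), thr (shf h), Nat.mul_pos hT1 (Nat.mul_pos hT0 hq), ?_⟩
  intro K _ _ _ M F x Ω δ hF hx hno hbas hΩ hΩ0 hδ h0 h1
  obtain ⟨⟨-, -, -, hps, -⟩, hch⟩ := H K M F x Ω δ hF hx hno hbas hΩ hΩ0 hδ
  obtain ⟨τ, hτ, hτ0, hτ1, hthr⟩ := threshold hch hps h0 h1
  have hτ0' : 0 < τ := by exact_mod_cast hτ0
  have hτ1' : τ ≤ 1 := by exact_mod_cast hτ1
  refine ⟨τ, hτ, hτ0', hτ1', hthr, ?_, fun P D hnd => ?_⟩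
  · -- the class at the threshold
    obtain ⟨c, hc⟩ := (hqd τ hτ).mul_left T0
    obtain ⟨b, hb⟩ : ∃ b : ℕ, ((T0 * q : ℕ) : ℚ) * τ = b := by
      have h2 : (τ.den : ℚ) * τ = τ.num := by
        rw [mul_comm]
        exact Rat.mul_den_eq_num τ
      have h3 : 0 ≤ τ.num := Rat.num_nonneg.2 hτ0'.le
      obtain ⟨m, hm⟩ := Int.eq_ofNat_of_zero_le h3
      refine ⟨c * m, ?_⟩
      rw [hc, Nat.cast_mul, mul_comm (τ.den : ℚ), mul_assoc, h2, hm]
      push_cast
      rfl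
    have hTq : (0 : ℚ) < ((T0 * q : ℕ) : ℚ) := by
      have : 0 < T0 * q := Nat.mul_pos hT0 hq
      exact_mod_cast this
    have hble : b ≤ T0 * q := by
      have h2 : (b : ℚ) ≤ ((T0 * q : ℕ) : ℚ) := by
        rw [← hb]
        exact mul_le_of_le_one_right hTq.le hτ1'
      exact_mod_cast h2
    have hb1 : 1 ≤ b := by
      have h2 : (0 : ℚ) < b := by
        rw [← hb]
        exact mul_pos hTq hτ0'
      exact_mod_cast h2
    obtain ⟨a, ha⟩ : ∃ a, T0 * q = a + b := ⟨T0 * q - b, by omega⟩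
    let μ0 : Fin 2 →₀ ℕ := Finsupp.equivFunOnFinite.symm ![a, b]
    have hμ00 : μ0 0 = a := rfl
    have hμ01 : μ0 1 = b := rfl
    have haq : (a : ℚ) = (T0 * q : ℕ) * (1 - τ) := by
      rw [mul_sub, mul_one, hb, ha]
      push_cast
      ring
    -- the class as a multiple of the point of the segment
    have hreal : (fun i => (μ0 i : ℝ)) = ((T0 * q : ℕ) : ℝ) • pth τ := by
      funext i
      rw [Pi.smul_apply, smul_eq_mul]
      fin_cases i
      · change (a : ℝ) = _ * (1 - (τ : ℝ))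
        exact_mod_cast haq
      · change (b : ℝ) = _ * (τ : ℝ)
        exact_mod_cast hb.symm
    have hp0 : PsefR N δ fun i => (μ0 i : ℝ) := by
      rw [hreal]
      exact psef_smul hps (Nat.cast_nonneg _) (pth_nonneg hτ0.le hτ1) ((hthr τ hτ0.le hτ1).2 le_rfl)
    have hne := (H1 K M F x Ω δ hF hx hno hbas hΩ hΩ0 hδ μ0).1.1 hp0
    obtain ⟨him, hnu⟩ := (H1 K M F x Ω δ hF hx hno hbas hΩ hΩ0 hδ μ0).2 hne
    refine ⟨T1 • μ0, ?_, ?_, _, ?_, him, numLe_smul hnu hT1⟩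
    · rw [Finsupp.smul_apply, smul_eq_mul, hμ00, Nat.cast_mul, haq]
      push_cast
      ring
    · rw [Finsupp.smul_apply, smul_eq_mul, hμ01, Nat.cast_mul, ← hb]
      push_cast
      ring
    · -- the dimension
      have hle : Module.finrank ℚ (vectorSpan ℚ (Pty dg κ ψ μ0)) ≤ N := by
        obtain ⟨T2, hT2⟩ := hψ
        obtain ⟨d, rfl⟩ : ∃ d, N = d + 1 := ⟨N - 1, by omega⟩
        let e : Coo n ≃ Fin (d + 1) := finSigmaFinEquiv.trans (finCongr (by omega))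
        rw [pty_rank e hd κ hT2]
        refine (Submodule.finrank_le _).trans ?_
        rw [Module.finrank_fin_fun]
      refine lt_of_le_of_ne hle fun hfull => ?_
      obtain ⟨m0, hm0⟩ := pty_perturb hN1 hN hd κ hψ μ0 hfull (Finsupp.single 1 1)
        (Finsupp.single 0 1)
      -- the perturbed class
      let μ' : Fin 2 →₀ ℕ := Finsupp.equivFunOnFinite.symm ![(m0 + 1) * a + 1, (m0 + 1) * b - 1]
      have hmb : 1 ≤ (m0 + 1) * b := Nat.mul_pos (Nat.succ_pos _) hb1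
      have hμ' : μ' + Finsupp.single 1 1 = (m0 + 1) • μ0 + Finsupp.single 0 1 := by
        ext i
        rw [Finsupp.add_apply, Finsupp.add_apply, Finsupp.smul_apply, smul_eq_mul]
        fin_cases i
        · change (m0 + 1) * a + 1 + (Finsupp.single (1 : Fin 2) 1) 0 =
            (m0 + 1) * a + (Finsupp.single (0 : Fin 2) 1) 0
          rw [Finsupp.single_apply, if_neg (by decide), Finsupp.single_eq_same, add_zero]
        · change (m0 + 1) * b - 1 + (Finsupp.single (1 : Fin 2) 1) 1 =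
            (m0 + 1) * b + (Finsupp.single (0 : Fin 2) 1) 1
          rw [Finsupp.single_eq_same, Finsupp.single_apply, if_neg (by decide)]
          omega
      have h2 := (H1 K M F x Ω δ hF hx hno hbas hΩ hΩ0 hδ μ').1.2 (hm0 _ μ' (by omega) hμ')
      -- its slope is smaller
      have hb1r : (1 : ℝ) ≤ b := by exact_mod_cast hb1
      have har : (0 : ℝ) ≤ a := Nat.cast_nonneg _
      have hm0r : (0 : ℝ) ≤ m0 := Nat.cast_nonneg _
      have hu : (0 : ℝ) < ((m0 : ℝ) + 1) * (a + b) := by positivity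
      obtain ⟨t, ht⟩ : ∃ t : ℝ, t = (((m0 : ℝ) + 1) * b - 1) / (((m0 : ℝ) + 1) * (a + b)) :=
        ⟨_, rfl⟩
      have ht0 : 0 ≤ t := by
        rw [ht]
        refine div_nonneg ?_ hu.le
        nlinarith
      have hτr : (τ : ℝ) = (b : ℝ) / (a + b) := by
        have h3 : (((T0 * q : ℕ) : ℝ)) * (τ : ℝ) = b := by exact_mod_cast hb
        rw [ha] at h3
        push_cast at h3
        rw [eq_div_iff (by positivity)]
        linarith
      have htτ : t < τ := by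
        rw [ht, hτr, div_lt_div_iff₀ hu (by positivity)]
        nlinarith
      have hcoe : (((m0 + 1) * b - 1 : ℕ) : ℝ) = ((m0 : ℝ) + 1) * b - 1 := by
        rw [Nat.cast_sub hmb]
        push_cast
        ring
      have h3 : pth t = (((m0 : ℝ) + 1) * (a + b))⁻¹ • fun i => (μ' i : ℝ) := by
        funext i
        rw [Pi.smul_apply, smul_eq_mul]
        fin_cases i
        · change 1 - t = _ * (((m0 + 1) * a + 1 : ℕ) : ℝ)
          rw [ht]
          push_cast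
          field_simp
          ring
        · change t = _ * (((m0 + 1) * b - 1 : ℕ) : ℝ)
          rw [hcoe, ht]
          field_simp
      have h4 : PsefR N δ (pth t) := by
        rw [h3]
        exact psef_smul hps (inv_nonneg.2 hu.le) (fun i => Nat.cast_nonneg _) h2
      have h5 := (hthr t ht0 (htτ.le.trans hτ1)).1 h4
      linarith
  · obtain ⟨σ, h2, h3, h4⟩ := steps hch hps P D hnd
    refine ⟨σ, fun t ht ht1 => h2 t (hτ0.le.trans ht) ht1 ((hthr t (hτ0.le.trans ht) ht1).2 ht),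
      fun s x t hs hsx hxt ht1 hno' => ?_, fun a b hab hle => ?_⟩
    · exact h3 s x t (hτ0.le.trans hs) hsx hxt ht1
        ((hthr s (hτ0.le.trans hs) ((hsx.trans hxt).trans ht1)).2 hs)
        ((hthr t (hτ0.le.trans (hs.trans (hsx.trans hxt))) ht1).2 (hs.trans (hsx.trans hxt))) hno'
    · have hab0 : (0 : ℝ) < (a : ℝ) + b := by exact_mod_cast hab
      have ht0 : (0 : ℝ) ≤ (b : ℝ) / (a + b) := div_nonneg (Nat.cast_nonneg _) hab0.le
      have ht1 : (b : ℝ) / (a + b) ≤ 1 := by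
        rw [div_le_one hab0]
        have : (0 : ℝ) ≤ a := Nat.cast_nonneg _
        linarith
      have hle' : (τ : ℝ) ≤ (b : ℝ) / (a + b) := by
        rw [le_div_iff₀ hab0]
        exact hle
      let μ0 : Fin 2 →₀ ℕ := Finsupp.equivFunOnFinite.symm ![a, b]
      have hreal : (fun i => (μ0 i : ℝ)) = ((a : ℝ) + b) • pth ((b : ℝ) / (a + b)) := by
        funext i
        rw [Pi.smul_apply, smul_eq_mul]
        fin_cases i
        · change (a : ℝ) = _ * (1 - (b : ℝ) / (a + b))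
          field_simp
          ring
        · change (b : ℝ) = _ * ((b : ℝ) / (a + b))
          field_simp
      obtain ⟨η, h5, h6, h7⟩ := h4 μ0 _ _ ht0 ht1 hab0.le
        ((hthr _ ht0 ht1).2 hle') hreal
      have h8 := msec_pow h5 (T1 * q)
      refine ⟨_, ?_, ?_, _, h8, pow_ne_zero _ h6, ?_⟩
      · rw [Finsupp.smul_apply, Finsupp.smul_apply, smul_eq_mul, smul_eq_mul]
        change T1 * q * (T0 * a) = _
        ring
      · rw [Finsupp.smul_apply, Finsupp.smul_apply, smul_eq_mul, smul_eq_mul]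
        change T1 * q * (T0 * b) = _
        ring
      · rw [P.ord_pow]
        push_cast
        rw [h7]
        ring

end Pool.Agent.Q68.MF
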