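import Pool.Agent.Q57.UG.TopK

/-!
A full dimensional polytope has points at which all inequalities are strict, so it stays nonempty
after a small change of the divisor.
-/

set_option autoImplicit false
set_option linter.overlappingInstances false
set_option linter.unusedSectionVars false
set_option maxHeartbeats 1000000

open Pool.Agent.Q57.TP Pool.Agent.Q57.UG Pool.Agent.Y169.TH

namespace Pool.Agent.Q68.MF

variable {D : ℕ} {ι : Type} [Fintype ι] {t : ι → Fin D → ℤ} {b : ι → ℚ}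

theorem dot_ne {s : ι} (ht : t s ≠ 0) : dotL (tq t s) ≠ 0 := by
  intro h0
  apply ht
  funext k
  have h1 := LinearMap.congr_fun h0 (Pi.single k 1)
  rw [dotL_apply, LinearMap.zero_apply, Finset.sum_eq_single k] at h1
  · rw [Pi.single_eq_same, mul_one] at h1
    unfold tq at h1
    exact_mod_cast h1
  · intro l _ hl
    rw [Pi.single_eq_of_ne hl, mul_zero]
  · intro h
    exact absurd (Finset.mem_univ _) h

/-- an inequality which is an equality on the polytope lowers the dimension -/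
theorem exists_strict (ht : ∀ s, t s ≠ 0)
    (hfull : Module.finrank ℚ (vectorSpan ℚ (Pol t b)) = D) (s : ι) :
    ∃ y ∈ Pol t b, b s < dotL (tq t s) y := by
  classical
  by_contra hcon
  push Not at hcon
  have htop : vectorSpan ℚ (Pol t b) = ⊤ := by
    apply Submodule.eq_top_of_finrank_eq
    rw [hfull, Module.finrank_fin_fun]
  have h1 : vectorSpan ℚ (Pol t b) ≤ LinearMap.ker (dotL (tq t s)) := by
    rw [vectorSpan_def, Submodule.span_le]
    rintro _ ⟨y, hy, z, hz, rfl⟩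
    rw [SetLike.mem_coe, LinearMap.mem_ker]
    dsimp only
    rw [vsub_eq_sub, map_sub, le_antisymm (hcon y hy) (hy s), le_antisymm (hcon z hz) (hz s),
      sub_self]
  rw [htop, top_le_iff, LinearMap.ker_eq_top] at h1
  exact dot_ne (ht s) h1

/-- **A point at which all inequalities are strict.** -/
theorem exists_interior (ht : ∀ s, t s ≠ 0)
    (hfull : Module.finrank ℚ (vectorSpan ℚ (Pol t b)) = D) :
    ∃ y, ∀ s, b s < dotL (tq t s) y := by
  classical
  rcases isEmpty_or_nonempty ι with hι | hι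
  · exact ⟨0, fun s => hι.elim s⟩
  choose y hy hys using fun s => exists_strict ht hfull s
  have hc : (0 : ℚ) < Fintype.card ι := by
    have := Fintype.card_pos (α := ι)
    exact_mod_cast this
  refine ⟨(Fintype.card ι : ℚ)⁻¹ • ∑ s, y s, fun s => ?_⟩
  rw [map_smul, map_sum, smul_eq_mul, ← div_eq_inv_mul, lt_div_iff₀ hc]
  calc b s * Fintype.card ι = ∑ _s' : ι, b s := by
        rw [Finset.sum_const, nsmul_eq_mul, Finset.card_univ, mul_comm]
    _ < ∑ s', dotL (tq t s) (y s') :=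
        Finset.sum_lt_sum (fun s' _ => hy s' s) ⟨s, Finset.mem_univ s, hys s⟩

/-- **The perturbation.** -/
theorem pol_perturb (ht : ∀ s, t s ≠ 0)
    (hfull : Module.finrank ℚ (vectorSpan ℚ (Pol t b)) = D)
    (c : ι → ℚ) : ∃ m0 : ℕ, ∀ m : ℕ, m0 ≤ m → (Pol t fun s => m * b s - c s).Nonempty := by
  classical
  obtain ⟨y, hy⟩ := exists_interior ht hfull
  have h1 : ∀ s, ∃ m0 : ℕ, ∀ m : ℕ, m0 ≤ m → m * b s - c s ≤ m * dotL (tq t s) y := by
    intro s
    obtain ⟨m0, hm0⟩ := exists_nat_gt (-c s / (dotL (tq t s) y - b s))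
    refine ⟨m0, fun m hm => ?_⟩
    have h2 : 0 < dotL (tq t s) y - b s := sub_pos.2 (hy s)
    rw [div_lt_iff₀ h2] at hm0
    have h3 : (m0 : ℚ) ≤ m := by exact_mod_cast hm
    nlinarith
  choose m0 hm0 using h1
  refine ⟨∑ s, m0 s, fun m hm => ⟨(m : ℚ) • y, fun s => ?_⟩⟩
  dsimp only
  rw [map_smul, smul_eq_mul]
  exact hm0 s m ((Finset.single_le_sum (f := m0) (fun _ _ => Nat.zero_le _)
    (Finset.mem_univ s)).trans hm)

variable {r p : ℕ} {n : Fin r → ℕ}

/-- **A full dimensional polytope of exponents stays nonempty.** -/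
theorem pty_perturb {N : ℕ} (hN1 : 1 ≤ N) (hN : N = ∑ i, n i) {dg : Hyp n → ℕ}
    (hd : ∀ b, 1 ≤ dg b) (κ : Fin r → ℤ) {ψ : Fin p → (Hyp n → ℕ) → ℚ}
    (hψ : ∃ T, PL ψ T) (μ : Fin p →₀ ℕ)
    (hfull : Module.finrank ℚ (vectorSpan ℚ (Pty dg κ ψ μ)) = N) (ν ν' : Fin p →₀ ℕ) :
    ∃ m0 : ℕ, ∀ (m : ℕ) (μ' : Fin p →₀ ℕ), m0 ≤ m → μ' + ν = m • μ + ν' →
      (Pty dg κ ψ μ').Nonempty := by
  classical
  obtain ⟨T0, hψ⟩ := hψ
  obtain ⟨d, rfl⟩ : ∃ d, N = d + 1 := ⟨N - 1, by omega⟩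
  let e : Coo n ≃ Fin (d + 1) := finSigmaFinEquiv.trans (finCongr (by omega))
  have hpne : ∀ μ : Fin p →₀ ℕ, (Pty dg κ ψ μ).Nonempty ↔ (Pol (tv e dg T0)
      (fun s => ∑ i, (μ i : ℚ) * (ψ i s.1 - lin dg κ fun b => (s.1 b : ℚ)))).Nonempty := by
    intro μ
    rw [pty_eq e hd κ hψ, Set.image_nonempty]
  rw [pty_rank e hd κ hψ] at hfull
  obtain ⟨m0, hm0⟩ := pol_perturb (fun s => tv_ne e hd hψ s) hfull
    (fun s => ∑ i, ((ν i : ℚ) - ν' i) * (ψ i s.1 - lin dg κ fun b => (s.1 b : ℚ)))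
  refine ⟨m0, fun m μ' hm hμ' => (hpne μ').2 ?_⟩
  have h1 := hm0 m hm
  have h2 : (fun s : T0 => (m : ℚ) * ∑ i, (μ i : ℚ) * (ψ i s.1 - lin dg κ fun b => (s.1 b : ℚ)) -
      ∑ i, ((ν i : ℚ) - ν' i) * (ψ i s.1 - lin dg κ fun b => (s.1 b : ℚ))) =
      fun s => ∑ i, (μ' i : ℚ) * (ψ i s.1 - lin dg κ fun b => (s.1 b : ℚ)) := by
    funext s
    rw [Finset.mul_sum, ← Finset.sum_sub_distrib]
    refine Finset.sum_congr rfl fun i _ => ?_
    have h3 := DFunLike.congr_fun hμ' i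
    rw [Finsupp.add_apply, Finsupp.add_apply, Finsupp.smul_apply, smul_eq_mul] at h3
    have h4 : (m : ℚ) * μ i = μ' i + ν i - ν' i := by
      have h5 : (μ' i : ℚ) + ν i = m * μ i + ν' i := by exact_mod_cast h3
      linarith
    rw [← mul_assoc, h4]
    ring
  rw [h2] at h1
  exact h1

end Pool.Agent.Q68.MF
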