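import Pool.Agent.Q57.UG.Top
import Pool.Agent.Q57.UG.TopK
import Pool.Agent.Q57.GC.Scale
import Pool.Agent.Q68.MF.Rank

/-!
The minimal model program with scaling for `K + (1 - t) Δ 0 + t Δ 1`, `0 ≤ t ≤ 1`, if `K + Δ 0` is not
pseudo-effective.
-/

set_option autoImplicit false
set_option linter.overlappingInstances false
set_option linter.unusedSectionVars false
set_option maxHeartbeats 1000000

open FF MvPolynomial Pool.Agent.W602.GT Pool.Agent.Q57.TP Pool.Agent.Q57.GM Pool.Agent.Q57.FG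
open Pool.Agent.Q57.GG Pool.Agent.Q57.GC Pool.Agent.Q57.UG

namespace Pool.Agent.Q68.MF

/-- the point `(1 - t, t)` -/
def pth (t : ℝ) : Fin 2 → ℝ := ![1 - t, t]

theorem pth_nonneg {t : ℝ} (h0 : 0 ≤ t) (h1 : t ≤ 1) (i : Fin 2) : 0 ≤ pth t i := by
  fin_cases i
  · exact sub_nonneg.2 h1
  · exact h0

theorem pth_comb (s u t : ℝ) (hst : s < t) :
    pth u = ((t - u) / (t - s)) • pth s + ((u - s) / (t - s)) • pth t := by
  have h1 : t - s ≠ 0 := (sub_pos.2 hst).ne'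
  funext i
  rw [Pi.add_apply, Pi.smul_apply, Pi.smul_apply, smul_eq_mul, smul_eq_mul]
  fin_cases i
  · change (1 : ℝ) - u = (t - u) / (t - s) * (1 - s) + (u - s) / (t - s) * (1 - t)
    field_simp
    ring
  · change u = (t - u) / (t - s) * s + (u - s) / (t - s) * t
    field_simp
    ring

/-- the forms in the other coordinates -/
def shf {n : ℕ} (h : Fin n → Fin 2 → ℚ) : Fin n → Fin 2 → ℚ := fun i => ![h i 0, h i 1 - h i 0]

theorem cell_shf {n : ℕ} {h : Fin n → Fin 2 → ℚ} {m t : ℝ}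
    (hc : Cell (shf h) (pt m) (pt t)) : Cell h (pth m) (pth t) := by
  intro i
  have h1 : ∀ x : ℝ, ∑ k, pth x k * (h i k : ℝ) = ∑ k, pt x k * (shf h i k : ℝ) := by
    intro x
    rw [Fin.sum_univ_two, Fin.sum_univ_two]
    change (1 - x) * (h i 0 : ℝ) + x * (h i 1 : ℝ) = 1 * (h i 0 : ℝ) + x * ((h i 1 - h i 0 : ℚ) : ℝ)
    push_cast
    ring
  rw [h1, h1]
  exact hc i

variable {N : ℕ} {K : Type} [Field K] [Algebra ℂ K] {δ : Fin 2 → Place ℂ K → ℚ}

section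

variable {T n : ℕ} {h : Fin n → Fin 2 → ℚ} (hch : ChambersOf N δ T h)
  {N0 : ℕ} {g : Fin N0 → Fin 2 →₀ ℕ}
  (hps : ∀ lam : Fin 2 → ℝ, (∀ i, 0 ≤ lam i) →
            (PsefR N δ lam ↔ ∃ t : Fin N0 → ℝ, (∀ b, 0 ≤ t b) ∧
              ∀ i, lam i = ∑ b, t b * g b i))

include hps in
theorem psef_add {lam lam' : Fin 2 → ℝ} (h1 : ∀ i, 0 ≤ lam i) (h2 : ∀ i, 0 ≤ lam' i)
    (h3 : PsefR N δ lam) (h4 : PsefR N δ lam') : PsefR N δ (lam + lam') := by
  rw [hps _ h1] at h3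
  rw [hps _ h2] at h4
  obtain ⟨t, ht, ht'⟩ := h3
  obtain ⟨u, hu, hu'⟩ := h4
  rw [hps (lam + lam') fun i => add_nonneg (h1 i) (h2 i)]
  refine ⟨t + u, fun b => add_nonneg (ht b) (hu b), fun i => ?_⟩
  rw [Pi.add_apply, ht', hu', ← Finset.sum_add_distrib]
  exact Finset.sum_congr rfl fun b _ => by rw [Pi.add_apply]; ring

include hps in
theorem psef_smul {lam : Fin 2 → ℝ} {c : ℝ} (hc : 0 ≤ c) (h1 : ∀ i, 0 ≤ lam i)
    (h3 : PsefR N δ lam) : PsefR N δ (c • lam) := by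
  rw [hps _ h1] at h3
  obtain ⟨t, ht, ht'⟩ := h3
  rw [hps (c • lam) fun i => mul_nonneg hc (h1 i)]
  refine ⟨c • t, fun b => mul_nonneg hc (ht b), fun i => ?_⟩
  rw [Pi.smul_apply, ht', smul_eq_mul, Finset.mul_sum]
  exact Finset.sum_congr rfl fun b _ => by rw [Pi.smul_apply, smul_eq_mul]; ring

include hps in
theorem psef_conv {s x t : ℝ} (hs : 0 ≤ s) (ht : t ≤ 1) (hsx : s ≤ x) (hxt : x ≤ t)
    (h1 : PsefR N δ (pth s)) (h2 : PsefR N δ (pth t)) : PsefR N δ (pth x) := by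
  rcases (hsx.trans hxt).eq_or_lt with h3 | h3
  · have h4 : x = s := le_antisymm (hxt.trans h3.ge) hsx
    rw [h4]
    exact h1
  · have h5 : 0 < t - s := sub_pos.2 h3
    rw [pth_comb s x t h3]
    have h6 : 0 ≤ (t - x) / (t - s) := div_nonneg (sub_nonneg.2 hxt) h5.le
    have h7 : 0 ≤ (x - s) / (t - s) := div_nonneg (sub_nonneg.2 hsx) h5.le
    have h8 := pth_nonneg hs (h3.le.trans ht)
    have h9 := pth_nonneg (hs.trans h3.le) ht
    exact psef_add hps (fun i => mul_nonneg h6 (h8 i)) (fun i => mul_nonneg h7 (h9 i))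
      (psef_smul hps h6 h8 h1) (psef_smul hps h7 h9 h2)

include hch hps in
/-- **The threshold.** -/
theorem threshold (h0 : ¬ PsefR N δ (pth 0)) (h1 : PsefR N δ (pth 1)) :
    ∃ θ ∈ thr (shf h), (0 : ℝ) < θ ∧ (θ : ℝ) ≤ 1 ∧
      ∀ x : ℝ, 0 ≤ x → x ≤ 1 → (PsefR N δ (pth x) ↔ (θ : ℝ) ≤ x) := by
  classical
  obtain ⟨hcl, -, -⟩ := hch
  -- a psef point has a psef threshold below it
  have key : ∀ x : ℝ, 0 ≤ x → x ≤ 1 → PsefR N δ (pth x) → ∃ θ ∈ thr (shf h),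
      (0 : ℝ) < θ ∧ (θ : ℝ) ≤ x ∧ PsefR N δ (pth θ) := by
    intro x hx hx1 hpx
    by_cases hB : ((thr (shf h)).filter fun θ' : ℚ => (0 : ℝ) < (θ' : ℝ) ∧ (θ' : ℝ) ≤ x).Nonempty
    · obtain ⟨θ1, hθ1', hmax⟩ := Finset.exists_max_image _ (fun θ : ℚ => θ) hB
      rw [Finset.mem_filter] at hθ1'
      refine ⟨θ1, hθ1'.1, hθ1'.2.1, hθ1'.2.2, (hcl (pth x) (pth θ1) (pth_nonneg hx hx1) hpx
          (cell_shf (cell_pt fun θ' hθ' => ?_))).2.1⟩
      by_cases h1 : θ' = θ1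
      · left
        rw [h1]
      · right
        rintro (⟨h2, h3⟩ | ⟨h2, h3⟩)
        · have h5 : (θ' : ℝ) = θ1 := le_antisymm h3 (hθ1'.2.2.trans h2)
          exact h1 (by exact_mod_cast h5)
        · have h4 := hmax θ' (Finset.mem_filter.2 ⟨hθ', hθ1'.2.1.trans_le h2, h3⟩)
          have h5 : (θ' : ℝ) = θ1 := le_antisymm (by exact_mod_cast h4) h2
          exact h1 (by exact_mod_cast h5)
    · rw [Finset.not_nonempty_iff_eq_empty] at hB
      refine absurd (hcl (pth x) (pth 0) (pth_nonneg hx hx1) hpx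
        (cell_shf (cell_pt fun θ' hθ' => ?_))).2.1 h0
      by_cases h1 : (θ' : ℝ) = 0
      · exact Or.inl h1
      · right
        rintro (⟨h2, h3⟩ | ⟨h2, h3⟩)
        · have h4 : x = 0 := le_antisymm (h2.trans h3) hx
          rw [h4] at hpx
          exact h0 hpx
        · have h4 : θ' ∈ (thr (shf h)).filter fun θ' : ℚ => (0 : ℝ) < (θ' : ℝ) ∧ (θ' : ℝ) ≤ x :=
            Finset.mem_filter.2 ⟨hθ', lt_of_le_of_ne h2 (Ne.symm h1), h3⟩
          rw [hB] at h4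
          exact absurd h4 (Finset.notMem_empty _)
  let A := (thr (shf h)).filter fun θ : ℚ => (0 : ℝ) < (θ : ℝ) ∧ (θ : ℝ) ≤ 1 ∧ PsefR N δ (pth θ)
  have hA : A.Nonempty := by
    obtain ⟨θ, h2, h3, h4, h5⟩ := key 1 zero_le_one le_rfl h1
    exact ⟨θ, Finset.mem_filter.2 ⟨h2, h3, h4, h5⟩⟩
  obtain ⟨θ, hθ, hmin⟩ := Finset.exists_min_image A (fun θ : ℚ => θ) hA
  rw [Finset.mem_filter] at hθ
  obtain ⟨hθ1, hθ2, hθ3, hθ4⟩ := hθ
  refine ⟨θ, hθ1, hθ2, hθ3, fun x hx hx1 => ⟨fun hpx => ?_, fun hle =>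
    psef_conv hps hθ2.le le_rfl hle hx1 hθ4 h1⟩⟩
  obtain ⟨θ', h2, h3, h4, h5⟩ := key x hx hx1 hpx
  have h6 := hmin θ' (Finset.mem_filter.2 ⟨h2, h3, h4.trans hx1, h5⟩)
  have h7 : (θ : ℝ) ≤ θ' := by exact_mod_cast h6
  exact h7.trans h4

include hch hps in
/-- **The steps.** -/
theorem steps (P : Place ℂ K) (D : Fin N → Derivation ℂ K K)
    (hnd : ∃ (S : Finset K) (μ : Fin 2 →₀ ℕ) (j : ℕ) (η : (Fin N → Derivation ℂ K K) → K), μ ≠ 0 ∧
      ASec N δ S μ j η ∧ η D ≠ 0) :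
    ∃ σ : ℝ → ℝ,
      (∀ t, 0 ≤ t → t ≤ 1 → PsefR N δ (pth t) → AsOrd N δ P D (pth t) (σ t)) ∧
      (∀ s x t, 0 ≤ s → s ≤ x → x ≤ t → t ≤ 1 → PsefR N δ (pth s) → PsefR N δ (pth t) →
        (∀ θ ∈ thr (shf h), ¬ (s < θ ∧ (θ : ℝ) < t)) →
          (t - s) * σ x = (t - x) * σ s + (x - s) * σ t) ∧
      ∀ (μ : Fin 2 →₀ ℕ) (t c : ℝ), 0 ≤ t → t ≤ 1 → 0 ≤ c → PsefR N δ (pth t) →
        (fun i => (μ i : ℝ)) = c • pth t → ∃ η, MSec N δ (T • μ) η ∧ η D ≠ 0 ∧
          (P.ord (η D) : ℝ) = T * (c * σ t) := by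
  classical
  obtain ⟨hcl, -, hσ⟩ := hch
  obtain ⟨σ, h1, h2, h3, h4⟩ := hσ P D hnd
  refine ⟨fun t => σ (pth t), fun t h0t ht1 hpt => h1 _ (pth_nonneg h0t ht1) hpt,
    fun s x t hs hsx hxt ht1 hps' hpt hno => ?_, fun μ t c ht ht1 hc hpt hμ => ?_⟩
  · rcases (hsx.trans hxt).eq_or_lt with h5 | h5
    · have h6 : x = s := le_antisymm (hxt.trans h5.ge) hsx
      rw [h6, ← h5]
      ring
    · -- the midpoint
      have hm1 : s < (s + t) / 2 := by linarith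
      have hm2 : (s + t) / 2 < t := by linarith
      have hm0 : 0 ≤ (s + t) / 2 := by linarith
      have hm1' : (s + t) / 2 ≤ 1 := by linarith
      have hpm := psef_conv hps hs ht1 hm1.le hm2.le hps' hpt
      have hcell : ∀ y, (y = s ∨ y = t) → Cell h (pth ((s + t) / 2)) (pth y) := by
        intro y hy
        refine cell_shf (cell_pt fun θ hθ => ?_)
        by_cases h3 : (θ : ℝ) = y
        · exact Or.inl h3
        · right
          intro h4
          have h5 := hno θ hθ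
          push Not at h5
          rcases hy with hy | hy
          · rw [hy] at h3 h4
            rcases h4 with ⟨h6, h7⟩ | ⟨h6, h7⟩
            · linarith
            · have h8 := h5 (lt_of_le_of_ne h6 (Ne.symm h3))
              linarith
          · rw [hy] at h3 h4
            rcases h4 with ⟨h6, h7⟩ | ⟨h6, h7⟩
            · have h8 := h5 (by linarith)
              exact h3 (le_antisymm h7 h8)
            · linarith
      have hts : 0 < t - s := sub_pos.2 h5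
      have hcs : ∀ (y c : ℝ), 0 ≤ c → (y = s ∨ y = t) →
          Cell h (pth ((s + t) / 2)) (c • pth y) := by
        intro y c hc hy i
        have h6 := hcell y hy i
        have h7 : ∑ k, (c • pth y) k * (h i k : ℝ) = c * ∑ k, pth y k * (h i k : ℝ) := by
          rw [Finset.mul_sum]
          exact Finset.sum_congr rfl fun k _ => by
            rw [Pi.smul_apply, smul_eq_mul, mul_assoc]
        rw [h7]
        exact ⟨fun h8 => mul_nonneg hc (h6.1 h8),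
          fun h8 => mul_nonpos_of_nonneg_of_nonpos hc (h6.2 h8)⟩
      have hc1 : 0 ≤ (t - x) / (t - s) := div_nonneg (sub_nonneg.2 hxt) hts.le
      have hc2 : 0 ≤ (x - s) / (t - s) := div_nonneg (sub_nonneg.2 hsx) hts.le
      have h6 := h3 (pth ((s + t) / 2)) (((t - x) / (t - s)) • pth s)
        (((x - s) / (t - s)) • pth t) (pth_nonneg hm0 hm1') hpm (hcs s _ hc1 (Or.inl rfl))
        (hcs t _ hc2 (Or.inr rfl))
      rw [← pth_comb s x t h5, h2 _ _ (pth_nonneg hs (h5.le.trans ht1)) hps' hc1,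
        h2 _ _ (pth_nonneg (hs.trans h5.le) ht1) hpt hc2] at h6
      change (t - s) * σ (pth x) = (t - x) * σ (pth s) + (x - s) * σ (pth t)
      rw [h6]
      field_simp
  · have h9 : PsefR N δ fun i => (μ i : ℝ) := by
      rw [hμ]
      exact psef_smul hps hc (pth_nonneg ht ht1) hpt
    obtain ⟨η, h10, h11, h12⟩ := h4 μ h9
    refine ⟨η, h10, h11, ?_⟩
    rw [h12, hμ, h2 _ _ (pth_nonneg ht ht1) hpt hc]

end

end Pool.Agent.Q68.MF
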