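import Pool.Agent.Q57.UG.Top

/-!
Finitely many toroidal models, and the termination of the sequences with increasing discrepancies.
-/

set_option autoImplicit false
set_option linter.overlappingInstances false
set_option linter.unusedSectionVars false
set_option maxHeartbeats 1000000

open FF MvPolynomial Pool.Agent.W602.GT Pool.Agent.Q57.TP Pool.Agent.Q57.GM Pool.Agent.Q57.FG
open Pool.Agent.Q57.GG Pool.Agent.Q57.GC Pool.Agent.Q57.UG
open scoped Topology

namespace Pool.Agent.Q68.MF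

variable {p N : ℕ} {K : Type} [Field K] [Algebra ℂ K] {δ : Fin p → Place ℂ K → ℚ}

/-- **Uniqueness of the asymptotic order.** -/
theorem asOrd_le {P : Place ℂ K} {D : Fin N → Derivation ℂ K K} {lam : Fin p → ℝ} {s s' : ℝ}
    (i0 : Fin p) (hi0 : 0 < lam i0) (h : AsOrd N δ P D lam s) (h' : AsOrd N δ P D lam s') :
    s ≤ s' := by
  refine le_of_forall_pos_le_add fun ε hε => ?_
  obtain ⟨θ, hθ, M₀, h1⟩ := h.1 (ε / 2) (by positivity) {1}
  have hε' : 0 < min (min (ε / 2) θ) (lam i0 / 2) := lt_min (lt_min (by positivity) hθ) (by linarith)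
  obtain ⟨M, hM, μ, η, h2, h3, h4, h5⟩ := h'.2 _ hε' (M₀ + 1)
  have hM1 : (1 : ℝ) ≤ M := by
    have : 1 ≤ M := by omega
    exact_mod_cast this
  have hM0 : (0 : ℝ) < M := by linarith
  have hle1 : min (min (ε / 2) θ) (lam i0 / 2) ≤ ε / 2 := (min_le_left _ _).trans (min_le_left _ _)
  have hle2 : min (min (ε / 2) θ) (lam i0 / 2) ≤ θ := (min_le_left _ _).trans (min_le_right _ _)
  have hle3 : min (min (ε / 2) θ) (lam i0 / 2) ≤ lam i0 / 2 := min_le_right _ _
  have hμ : μ ≠ 0 := by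
    intro h0
    have h6 := h2 i0
    rw [h0, Finsupp.zero_apply, Nat.cast_zero, zero_sub, abs_neg, abs_of_pos (mul_pos hM0 hi0)]
      at h6
    nlinarith
  have h6 := h1 M (by omega) μ 0 η hμ (fun i => (h2 i).trans (by nlinarith))
    (by rw [Nat.cast_zero]; positivity) (msec_asec h3) h4
  have h7 : (s - ε / 2) * M ≤ (s' + ε / 2) * M := by nlinarith
  have h8 := le_of_mul_le_mul_right h7 hM0
  linarith

theorem asOrd_unique {P : Place ℂ K} {D : Fin N → Derivation ℂ K K} {lam : Fin p → ℝ} {s s' : ℝ}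
    (i0 : Fin p) (hi0 : 0 < lam i0) (h : AsOrd N δ P D lam s) (h' : AsOrd N δ P D lam s') :
    s = s' :=
  le_antisymm (asOrd_le i0 hi0 h h') (asOrd_le i0 hi0 h' h)

/-- there are sections which do not vanish on the vector fields -/
def Adm (N : ℕ) (δ : Fin p → Place ℂ K → ℚ) (D : Fin N → Derivation ℂ K K) : Prop :=
  ∃ (S : Finset K) (μ : Fin p →₀ ℕ) (j : ℕ) (η : (Fin N → Derivation ℂ K K) → K), μ ≠ 0 ∧
    ASec N δ S μ j η ∧ η D ≠ 0

/-- the asymptotic orders are linear near `lam` -/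
def Mdl (N : ℕ) (δ : Fin p → Place ℂ K → ℚ) (lam : Fin p → ℝ)
    (s : Place ℂ K → (Fin N → Derivation ℂ K K) → ((Fin p → ℝ) →ₗ[ℝ] ℝ)) : Prop :=
  ∀ (P : Place ℂ K) (D : Fin N → Derivation ℂ K K), Adm N δ D → ∃ U ∈ 𝓝 lam, ∀ lam' ∈ U,
    (∀ i, 0 ≤ lam' i) ∧ PsefR N δ lam' ∧ AsOrd N δ P D lam' (s P D lam')

/-- generic vectors -/
theorem exists_generic {n : ℕ} (h : Fin n → Fin p → ℚ) : ∃ v : Fin p → ℝ, ∀ i, h i ≠ 0 →
    ∑ k, v k * (h i k : ℝ) ≠ 0 := by
  classical
  let f : Fin n → Module.Dual ℝ (Fin p → ℝ) := fun i =>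
    { toFun := fun v => ∑ k, v k * (h i k : ℝ)
      map_add' := fun v w => by
        rw [← Finset.sum_add_distrib]
        exact Finset.sum_congr rfl fun k _ => by rw [Pi.add_apply]; ring
      map_smul' := fun c v => by
        rw [RingHom.id_apply, smul_eq_mul, Finset.mul_sum]
        exact Finset.sum_congr rfl fun k _ => by rw [Pi.smul_apply, smul_eq_mul]; ring }
  obtain ⟨v, hv⟩ := Submodule.exists_forall_notMem_of_forall_ne_top
    (fun i : {i // h i ≠ 0} => LinearMap.ker (f i.1)) (by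
      intro i htop
      apply i.2
      funext k
      have h1 : (Pi.single k 1 : Fin p → ℝ) ∈ LinearMap.ker (f i.1) := by
        rw [htop]
        exact Submodule.mem_top
      have h2 : ∑ l, (Pi.single k 1 : Fin p → ℝ) l * (h i.1 l : ℝ) = 0 := h1
      rw [Finset.sum_eq_single k] at h2
      · rw [Pi.single_eq_same, one_mul] at h2
        exact_mod_cast h2
      · intro l _ hl
        rw [Pi.single_eq_of_ne hl, zero_mul]
      · intro hk
        exact absurd (Finset.mem_univ k) hk)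
  exact ⟨v, fun i hi h0 => hv ⟨i, hi⟩ h0⟩

/-- the value of the form -/
def frm {n : ℕ} (h : Fin n → Fin p → ℚ) (i : Fin n) (lam : Fin p → ℝ) : ℝ :=
  ∑ k, lam k * (h i k : ℝ)

theorem frm_add {n : ℕ} (h : Fin n → Fin p → ℚ) (i : Fin n) (x y : Fin p → ℝ) :
    frm h i (x + y) = frm h i x + frm h i y := by
  unfold frm
  rw [← Finset.sum_add_distrib]
  exact Finset.sum_congr rfl fun k _ => by rw [Pi.add_apply]; ring

theorem frm_smul {n : ℕ} (h : Fin n → Fin p → ℚ) (i : Fin n) (c : ℝ) (x : Fin p → ℝ) :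
    frm h i (c • x) = c * frm h i x := by
  unfold frm
  rw [Finset.mul_sum]
  exact Finset.sum_congr rfl fun k _ => by rw [Pi.smul_apply, smul_eq_mul]; ring

theorem continuous_frm {n : ℕ} (h : Fin n → Fin p → ℚ) (i : Fin n) : Continuous (frm h i) := by
  unfold frm
  fun_prop

open Classical in
/-- the signs -/
noncomputable def sgv {n : ℕ} (h : Fin n → Fin p → ℚ) (v : Fin p → ℝ) (lam : Fin p → ℝ)
    (i : Fin n) : Fin 2 :=
  if 0 < frm h i lam ∨ (frm h i lam = 0 ∧ 0 < frm h i v) then 1 else 0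

/-- near `lam` there are points of the open cell -/
theorem exists_near {n : ℕ} {h : Fin n → Fin p → ℚ} {v : Fin p → ℝ}
    (hv : ∀ i, h i ≠ 0 → frm h i v ≠ 0) (lam : Fin p → ℝ) {U : Set (Fin p → ℝ)}
    (hU : U ∈ 𝓝 lam) : ∃ x ∈ U, U ∈ 𝓝 x ∧ ∀ i, h i ≠ 0 →
      (sgv h v lam i = 1 → 0 < frm h i x) ∧ (sgv h v lam i = 0 → frm h i x < 0) := by
  classical
  -- small multiples of v
  have hc : ContinuousAt (fun ε : ℝ => lam + ε • v) 0 := by fun_prop
  have hc0 : (fun ε : ℝ => lam + ε • v) 0 = lam := by simp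
  have h1 : ∀ᶠ ε in 𝓝 (0 : ℝ), lam + ε • v ∈ interior U := by
    apply hc
    rw [hc0]
    exact interior_mem_nhds.2 hU
  have h2 : ∀ᶠ ε in 𝓝[>] (0 : ℝ), ∀ i, h i ≠ 0 →
      (sgv h v lam i = 1 → 0 < frm h i (lam + ε • v)) ∧
        (sgv h v lam i = 0 → frm h i (lam + ε • v) < 0) := by
    rw [Filter.eventually_all]
    intro i
    by_cases hi : h i = 0
    · exact Filter.Eventually.of_forall fun ε h0 => absurd hi h0
    have hci : Filter.Tendsto (fun ε : ℝ => frm h i (lam + ε • v)) (𝓝[>] 0)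
        (𝓝 (frm h i lam)) := by
      have h3 : ContinuousAt (fun ε : ℝ => frm h i (lam + ε • v)) 0 :=
        (continuous_frm h i).continuousAt.comp hc
      have h4 : Filter.Tendsto (fun ε : ℝ => frm h i (lam + ε • v)) (𝓝 0)
          (𝓝 (frm h i (lam + (0 : ℝ) • v))) := h3.tendsto
      rw [zero_smul, add_zero] at h4
      exact h4.mono_left nhdsWithin_le_nhds
    rcases lt_trichotomy (frm h i lam) 0 with h3 | h3 | h3
    · have hs : sgv h v lam i = 0 := by
        unfold sgv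
        rw [if_neg]
        rintro (h4 | h4)
        · linarith
        · linarith [h4.1]
      filter_upwards [hci.eventually (gt_mem_nhds h3)] with ε hε _
      rw [hs]
      exact ⟨fun h5 => absurd h5 (by decide), fun _ => hε⟩
    · have hpos : ∀ᶠ ε in 𝓝[>] (0 : ℝ), 0 < ε := self_mem_nhdsWithin
      filter_upwards [hpos] with ε hε _
      rw [frm_add, h3, zero_add, frm_smul]
      rcases lt_or_gt_of_ne (hv i hi) with h4 | h4
      · have hs : sgv h v lam i = 0 := by
          unfold sgv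
          rw [if_neg]
          rintro (h5 | h5)
          · linarith
          · linarith [h5.2]
        rw [hs]
        exact ⟨fun h5 => absurd h5 (by decide), fun _ => mul_neg_of_pos_of_neg hε h4⟩
      · have hs : sgv h v lam i = 1 := by
          unfold sgv
          rw [if_pos (Or.inr ⟨h3, h4⟩)]
        rw [hs]
        exact ⟨fun _ => mul_pos hε h4, fun h5 => absurd h5 (by decide)⟩
    · have hs : sgv h v lam i = 1 := by
        unfold sgv
        rw [if_pos (Or.inl h3)]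
      filter_upwards [hci.eventually (lt_mem_nhds h3)] with ε hε _
      rw [hs]
      exact ⟨fun _ => hε, fun h5 => absurd h5 (by decide)⟩
  obtain ⟨ε, h3, h4⟩ := ((h1.filter_mono nhdsWithin_le_nhds).and h2).exists
  exact ⟨lam + ε • v, interior_subset h3, mem_interior_iff_mem_nhds.1 h3, h4⟩

/-- **The sign vector determines the model.** -/
theorem mdl_unique {T n : ℕ} {h : Fin n → Fin p → ℚ} (hch : ChambersOf N δ T h) {v : Fin p → ℝ}
    (hv : ∀ i, h i ≠ 0 → frm h i v ≠ 0) {lam lam' : Fin p → ℝ}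
    {s s' : Place ℂ K → (Fin N → Derivation ℂ K K) → ((Fin p → ℝ) →ₗ[ℝ] ℝ)}
    (hs : Mdl N δ lam s) (hs' : Mdl N δ lam' s') (heq : sgv h v lam = sgv h v lam')
    (P : Place ℂ K) (D : Fin N → Derivation ℂ K K) (hD : Adm N δ D) : s P D = s' P D := by
  classical
  obtain ⟨-, -, hσ⟩ := hch
  obtain ⟨σ, h1, h2, h3, -⟩ := hσ P D hD
  obtain ⟨U, hU, hU1⟩ := hs P D hD
  obtain ⟨U', hU', hU1'⟩ := hs' P D hD
  obtain ⟨x, hx, hxU, hx1⟩ := exists_near hv lam hU
  obtain ⟨y, hy, hyU, hy1⟩ := exists_near hv lam' hU'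
  rcases Nat.eq_zero_or_pos p with hp | hp
  · subst hp
    refine LinearMap.ext fun w => ?_
    rw [Subsingleton.elim w 0, map_zero, map_zero]
  -- the open cell is a neighbourhood
  have hcell : ∀ z : Fin p → ℝ, (∀ i, h i ≠ 0 →
      (sgv h v lam i = 1 → 0 < frm h i z) ∧ (sgv h v lam i = 0 → frm h i z < 0)) →
      ∀ᶠ w in 𝓝 z, ∀ i, h i ≠ 0 →
        (sgv h v lam i = 1 → 0 < frm h i w) ∧ (sgv h v lam i = 0 → frm h i w < 0) := by
    intro z hz
    rw [Filter.eventually_all]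
    intro i
    by_cases hi : h i = 0
    · exact Filter.Eventually.of_forall fun w h0 => absurd hi h0
    have h4 := hz i hi
    by_cases h5 : sgv h v lam i = 1
    · filter_upwards [(continuous_frm h i).continuousAt.eventually (lt_mem_nhds (h4.1 h5))]
        with w hw _
      exact ⟨fun _ => hw, fun h6 => absurd (h5.symm.trans h6) (by decide)⟩
    · have h6 : sgv h v lam i = 0 := by
        have : ∀ a : Fin 2, a ≠ 1 → a = 0 := by decide
        exact this _ h5
      filter_upwards [(continuous_frm h i).continuousAt.eventually (gt_mem_nhds (h4.2 h6))]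
        with w hw _
      exact ⟨fun h7 => absurd h7 h5, fun _ => hw⟩
  have hCell : ∀ z w : Fin p → ℝ, (∀ i, h i ≠ 0 →
      (sgv h v lam i = 1 → 0 < frm h i z) ∧ (sgv h v lam i = 0 → frm h i z < 0)) →
      (∀ i, h i ≠ 0 →
      (sgv h v lam i = 1 → 0 < frm h i w) ∧ (sgv h v lam i = 0 → frm h i w < 0)) →
      Cell h z w := by
    intro z w hz hw i
    change (0 ≤ frm h i z → 0 ≤ frm h i w) ∧ (frm h i z ≤ 0 → frm h i w ≤ 0)
    by_cases hi : h i = 0
    · have h4 : ∀ u, frm h i u = 0 := by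
        intro u
        unfold frm
        rw [hi]
        exact Finset.sum_eq_zero fun k _ => by
          rw [Pi.zero_apply, Rat.cast_zero, mul_zero]
      rw [h4, h4]
      exact ⟨fun _ => le_rfl, fun _ => le_rfl⟩
    have h4 := hz i hi
    have h5 := hw i hi
    by_cases h6 : sgv h v lam i = 1
    · exact ⟨fun _ => (h5.1 h6).le, fun h7 => absurd (h4.1 h6) (not_lt.2 h7)⟩
    · have h7 : sgv h v lam i = 0 := by
        have : ∀ a : Fin 2, a ≠ 1 → a = 0 := by decide
        exact this _ h6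
      exact ⟨fun h8 => absurd (h4.2 h7) (not_lt.2 h8), fun _ => (h5.2 h7).le⟩
  rw [← heq] at hy1
  -- a common small neighbourhood of zero
  have hz1 : ∀ᶠ u in 𝓝 (0 : Fin p → ℝ), x + u ∈ U ∧ ∀ i, h i ≠ 0 →
        (sgv h v lam i = 1 → 0 < frm h i (x + u)) ∧ (sgv h v lam i = 0 → frm h i (x + u) < 0) := by
    have hc : Filter.Tendsto (fun u : Fin p → ℝ => x + u) (𝓝 0) (𝓝 x) := by
      have : ContinuousAt (fun u : Fin p → ℝ => x + u) 0 := by fun_prop
      simpa using this.tendsto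
    exact hc.eventually ((Filter.eventually_mem_set.2 hxU).and (hcell x hx1))
  have hz2 : ∀ᶠ u in 𝓝 (0 : Fin p → ℝ), y + u ∈ U' ∧ ∀ i, h i ≠ 0 →
        (sgv h v lam i = 1 → 0 < frm h i (y + u)) ∧ (sgv h v lam i = 0 → frm h i (y + u) < 0) := by
    have hc : Filter.Tendsto (fun u : Fin p → ℝ => y + u) (𝓝 0) (𝓝 y) := by
      have : ContinuousAt (fun u : Fin p → ℝ => y + u) 0 := by fun_prop
      simpa using this.tendsto
    exact hc.eventually ((Filter.eventually_mem_set.2 hyU).and (hcell y hy1))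
  -- positivity of an entry
  have hpos : ∀ (z : Fin p → ℝ) (W : Set (Fin p → ℝ)), W ∈ 𝓝 z → (∀ w ∈ W, ∀ i, 0 ≤ w i) →
      ∀ i, 0 < z i := by
    intro z W hW hW0 i
    have hc : Filter.Tendsto (fun ε : ℝ => z - ε • Pi.single i (1 : ℝ)) (𝓝[>] 0) (𝓝 z) := by
      have : ContinuousAt (fun ε : ℝ => z - ε • Pi.single i (1 : ℝ)) 0 := by fun_prop
      have h4 := this.tendsto
      simp only [zero_smul, sub_zero] at h4
      exact h4.mono_left nhdsWithin_le_nhds
    have hp0 : ∀ᶠ ε in 𝓝[>] (0 : ℝ), 0 < ε := self_mem_nhdsWithin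
    obtain ⟨ε, h4, h5⟩ := ((hc.eventually (Filter.eventually_mem_set.2 hW)).and hp0).exists
    have h6 := hW0 _ h4 i
    rw [Pi.sub_apply, Pi.smul_apply, Pi.single_eq_same, smul_eq_mul, mul_one] at h6
    linarith
  -- the asymptotic orders are the values of σ
  have hsx : ∀ u, x + u ∈ interior U → σ (x + u) = s P D (x + u) := by
    intro u hu
    obtain ⟨h4, h5, h6⟩ := hU1 _ (interior_subset hu)
    exact asOrd_unique ⟨0, hp⟩ (hpos _ U (mem_interior_iff_mem_nhds.1 hu)
      (fun w hw => (hU1 w hw).1) _) (h1 _ h4 h5) h6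
  have hsy : ∀ u, y + u ∈ interior U' → σ (y + u) = s' P D (y + u) := by
    intro u hu
    obtain ⟨h4, h5, h6⟩ := hU1' _ (interior_subset hu)
    exact asOrd_unique ⟨0, hp⟩ (hpos _ U' (mem_interior_iff_mem_nhds.1 hu)
      (fun w hw => (hU1' w hw).1) _) (h1 _ h4 h5) h6
  have hz3 : ∀ᶠ u in 𝓝 (0 : Fin p → ℝ), s P D u = s' P D u := by
    have hi1 : ∀ᶠ u in 𝓝 (0 : Fin p → ℝ), x + u ∈ interior U := by
      have hc : Filter.Tendsto (fun u : Fin p → ℝ => x + u) (𝓝 0) (𝓝 x) := by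
        have : ContinuousAt (fun u : Fin p → ℝ => x + u) 0 := by fun_prop
        simpa using this.tendsto
      exact hc.eventually (Filter.eventually_mem_set.2 (interior_mem_nhds.2 hxU))
    have hi2 : ∀ᶠ u in 𝓝 (0 : Fin p → ℝ), y + u ∈ interior U' := by
      have hc : Filter.Tendsto (fun u : Fin p → ℝ => y + u) (𝓝 0) (𝓝 y) := by
        have : ContinuousAt (fun u : Fin p → ℝ => y + u) 0 := by fun_prop
        simpa using this.tendsto
      exact hc.eventually (Filter.eventually_mem_set.2 (interior_mem_nhds.2 hyU))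
    have hx0 := hi1.self_of_nhds
    have hy0 := hi2.self_of_nhds
    filter_upwards [hz1, hz2, hi1, hi2] with u ⟨h4, h5⟩ ⟨h6, h7⟩ h8 h9
    have hpx := hU1 x hx
    -- σ ((x + u) + y) = σ (x + (y + u))
    have e1 := h3 x (x + u) y hpx.1 hpx.2.1 (hCell x (x + u) hx1 h5) (hCell x y hx1 hy1)
    have e2 := h3 x x (y + u) hpx.1 hpx.2.1 (hCell x x hx1 hx1) (hCell x (y + u) hx1 h7)
    have e3 : x + u + y = x + (y + u) := by
      rw [add_assoc, add_comm u y]
    rw [e3, e2] at e1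
    have e4 := hsx u h8
    have e5 := hsx 0 hx0
    have e6 := hsy u h9
    have e7 := hsy 0 hy0
    rw [add_zero] at e5 e7
    rw [e4, e5, e6, e7, map_add, map_add] at e1
    linarith
  -- equal near zero, hence equal
  refine LinearMap.ext fun w => ?_
  have hc : Filter.Tendsto (fun ε : ℝ => ε • w) (𝓝[>] 0) (𝓝 0) := by
    have : ContinuousAt (fun ε : ℝ => ε • w) 0 := by fun_prop
    have h4 := this.tendsto
    simp only [zero_smul] at h4
    exact h4.mono_left nhdsWithin_le_nhds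
  have hp0 : ∀ᶠ ε in 𝓝[>] (0 : ℝ), 0 < ε := self_mem_nhdsWithin
  obtain ⟨ε, h4, h5⟩ := ((hc.eventually hz3).and hp0).exists
  rw [map_smul, map_smul, smul_eq_mul, smul_eq_mul] at h4
  exact mul_left_cancel₀ h5.ne' h4

/-- **Finitely many models.** -/
theorem finite_models {T n : ℕ} {h : Fin n → Fin p → ℚ} (hch : ChambersOf N δ T h)
    (lam : Fin (2 ^ n + 1) → Fin p → ℝ)
    (s : Fin (2 ^ n + 1) → Place ℂ K → (Fin N → Derivation ℂ K K) → ((Fin p → ℝ) →ₗ[ℝ] ℝ))
    (hs : ∀ j, Mdl N δ (lam j) (s j)) : ∃ i j, i < j ∧ ∀ P D, Adm N δ D →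
      s i P D = s j P D := by
  classical
  obtain ⟨v, hv⟩ := exists_generic h
  have hcard : Fintype.card (Fin n → Fin 2) < Fintype.card (Fin (2 ^ n + 1)) := by
    rw [Fintype.card_fun, Fintype.card_fin, Fintype.card_fin, Fintype.card_fin]
    omega
  obtain ⟨i, j, hij, heq⟩ := Fintype.exists_ne_map_eq_of_card_lt (fun j => sgv h v (lam j)) hcard
  rcases lt_or_gt_of_ne hij with h1 | h1
  · exact ⟨i, j, h1, fun P D hD => mdl_unique hch hv (hs i) (hs j) heq P D hD⟩
  · exact ⟨j, i, h1, fun P D hD => mdl_unique hch hv (hs j) (hs i) heq.symm P D hD⟩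

/-- **Termination.** -/
theorem termination {T n : ℕ} {h : Fin n → Fin p → ℚ} (hch : ChambersOf N δ T h) (m : ℕ)
    (lam : ℕ → Fin p → ℝ)
    (s : ℕ → Place ℂ K → (Fin N → Derivation ℂ K K) → ((Fin p → ℝ) →ₗ[ℝ] ℝ))
    (hs : ∀ j ≤ m, Mdl N δ (lam j) (s j)) (c : Fin p → ℝ)
    (hle : ∀ j < m, ∀ P D, Adm N δ D → s j P D c ≤ s (j + 1) P D c)
    (hlt : ∀ j < m, ∃ P D, Adm N δ D ∧ s j P D c < s (j + 1) P D c) : m < 2 ^ n := by
  classical
  by_contra hcon
  push Not at hcon
  obtain ⟨i, j, hij, heq⟩ := finite_models hch (fun k => lam k) (fun k => s k)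
    (fun k => hs k (by have := k.2; omega))
  have hmono : ∀ P D, Adm N δ D → ∀ a b : ℕ, a ≤ b → b ≤ m → s a P D c ≤ s b P D c := by
    intro P D hD a b hab
    induction b, hab using Nat.le_induction with
    | base => exact fun _ => le_rfl
    | succ b _ ih =>
      intro hb
      exact (ih (by omega)).trans (hle b (by omega) P D hD)
  have hij' : (i : ℕ) < j := hij
  obtain ⟨P, D, hD, h1⟩ := hlt i (by have := j.2; omega)
  have h2 := hmono P D hD (i + 1) j (by omega) (by have := j.2; omega)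
  have h3 : s i P D c = s j P D c := LinearMap.congr_fun (heq P D hD) c
  linarith

/-- an additive and positively homogeneous function on an open cone is linear -/
theorem exists_linear {C : Set (Fin p → ℝ)} (hC : IsOpen C) (hne : C.Nonempty)
    (hsm : ∀ x ∈ C, ∀ c : ℝ, 0 < c → c • x ∈ C) (had : ∀ x ∈ C, ∀ y ∈ C, x + y ∈ C)
    {σ : (Fin p → ℝ) → ℝ} (hσs : ∀ x ∈ C, ∀ c : ℝ, 0 < c → σ (c • x) = c * σ x)
    (hσa : ∀ x ∈ C, ∀ y ∈ C, σ (x + y) = σ x + σ y) :
    ∃ s : (Fin p → ℝ) →ₗ[ℝ] ℝ, ∀ x ∈ C, σ x = s x := by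
  classical
  obtain ⟨e, he⟩ := hne
  -- every vector is in C after the addition of a multiple of e
  have hT : ∀ u : Fin p → ℝ, ∃ t : ℝ, 0 < t ∧ u + t • e ∈ C := by
    intro u
    have hc : Filter.Tendsto (fun ε : ℝ => ε • u + e) (𝓝[>] 0) (𝓝 e) := by
      have : ContinuousAt (fun ε : ℝ => ε • u + e) 0 := by fun_prop
      have h4 : Filter.Tendsto (fun ε : ℝ => ε • u + e) (𝓝 0) (𝓝 ((0 : ℝ) • u + e)) :=
        this.tendsto
      rw [zero_smul, zero_add] at h4
      exact h4.mono_left nhdsWithin_le_nhds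
    have hp0 : ∀ᶠ ε in 𝓝[>] (0 : ℝ), 0 < ε := self_mem_nhdsWithin
    obtain ⟨ε, h4, h5⟩ := ((hc.eventually (hC.mem_nhds he)).and hp0).exists
    refine ⟨ε⁻¹, inv_pos.2 h5, ?_⟩
    have h6 := hsm _ h4 ε⁻¹ (inv_pos.2 h5)
    rw [smul_add, smul_smul, inv_mul_cancel₀ h5.ne', one_smul] at h6
    exact h6
  choose t ht0 ht using hT
  have hind : ∀ (u : Fin p → ℝ) (a : ℝ), u + a • e ∈ C → 0 < a →
      σ (u + a • e) - a * σ e = σ (u + t u • e) - t u * σ e := by
    intro u a ha ha0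
    have h1 := hσa _ ha _ (hsm e he (t u) (ht0 u))
    have h2 := hσa _ (ht u) _ (hsm e he a ha0)
    rw [hσs e he _ (ht0 u)] at h1
    rw [hσs e he _ ha0] at h2
    have h3 : u + a • e + t u • e = u + t u • e + a • e := by
      rw [add_assoc, add_assoc, add_comm (a • e)]
    rw [h3, h2] at h1
    linarith
  have hadd : ∀ u w : Fin p → ℝ, σ (u + w + t (u + w) • e) - t (u + w) * σ e =
      (σ (u + t u • e) - t u * σ e) + (σ (w + t w • e) - t w * σ e) := by
    intro u w
    have h1 := hσa _ (ht u) _ (ht w)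
    have h2 : u + t u • e + (w + t w • e) = u + w + (t u + t w) • e := by
      rw [add_smul]
      abel
    have h3 := had _ (ht u) _ (ht w)
    rw [h2] at h1 h3
    rw [← hind (u + w) (t u + t w) h3 (add_pos (ht0 u) (ht0 w)), h1]
    ring
  have hsmul : ∀ (a : ℝ) (u : Fin p → ℝ), 0 < a →
      σ (a • u + t (a • u) • e) - t (a • u) * σ e = a * (σ (u + t u • e) - t u * σ e) := by
    intro a u ha
    have h1 := hsm _ (ht u) a ha
    have h2 : a • (u + t u • e) = a • u + (a * t u) • e := by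
      rw [smul_add, smul_smul]
    rw [h2] at h1
    rw [← hind (a • u) (a * t u) h1 (mul_pos ha (ht0 u)), ← h2, hσs _ (ht u) a ha]
    ring
  have hzero : σ ((0 : Fin p → ℝ) + t 0 • e) - t 0 * σ e = 0 := by
    have h1 := hadd 0 0
    rw [add_zero] at h1
    linarith
  have hneg : ∀ u : Fin p → ℝ, σ (-u + t (-u) • e) - t (-u) * σ e =
      -(σ (u + t u • e) - t u * σ e) := by
    intro u
    have h1 := hadd u (-u)
    rw [add_neg_cancel, hzero] at h1
    linarith
  refine ⟨{ toFun := fun u => σ (u + t u • e) - t u * σ e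
            map_add' := hadd
            map_smul' := fun a u => ?_ }, fun x hx => ?_⟩
  · rw [RingHom.id_apply, smul_eq_mul]
    rcases lt_trichotomy a 0 with h1 | h1 | h1
    · have h2 := hsmul (-a) u (neg_pos.2 h1)
      rw [neg_smul, hneg] at h2
      linarith
    · rw [h1, zero_smul, zero_mul]
      exact hzero
    · exact hsmul a u h1
  · change σ x = σ (x + t x • e) - t x * σ e
    rw [hσa x hx _ (hsm e he _ (ht0 x)), hσs e he _ (ht0 x)]
    ring

/-- **The models are dense in the interior.** -/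
theorem exists_model {T n : ℕ} {h : Fin n → Fin p → ℚ} (hch : ChambersOf N δ T h)
    {lam : Fin p → ℝ} {U : Set (Fin p → ℝ)} (hU : U ∈ 𝓝 lam)
    (hps : ∀ lam' ∈ U, (∀ i, 0 ≤ lam' i) ∧ PsefR N δ lam') :
    ∃ lam' ∈ U, ∃ s, Mdl N δ lam' s := by
  classical
  obtain ⟨v, hv⟩ := exists_generic h
  obtain ⟨x, hx, hxU, hx1⟩ := exists_near hv lam hU
  obtain ⟨hcl, -, hσ⟩ := hch
  -- the open cell
  let C : Set (Fin p → ℝ) := {w | ∀ i, h i ≠ 0 →
    (sgv h v lam i = 1 → 0 < frm h i w) ∧ (sgv h v lam i = 0 → frm h i w < 0)}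
  have hCo : IsOpen C := by
    have h1 : C = ⋂ i, {w | h i ≠ 0 →
        (sgv h v lam i = 1 → 0 < frm h i w) ∧ (sgv h v lam i = 0 → frm h i w < 0)} := by
      ext w
      simp only [C, Set.mem_ofPred_eq, Set.mem_iInter]
    rw [h1]
    refine isOpen_iInter_of_finite fun i => ?_
    by_cases hi : h i = 0
    · have h2 : {w : Fin p → ℝ | h i ≠ 0 → (sgv h v lam i = 1 → 0 < frm h i w) ∧
          (sgv h v lam i = 0 → frm h i w < 0)} = Set.univ :=
        Set.eq_univ_of_forall fun w h0 => absurd hi h0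
      rw [h2]
      exact isOpen_univ
    by_cases h5 : sgv h v lam i = 1
    · have h2 : {w : Fin p → ℝ | h i ≠ 0 → (sgv h v lam i = 1 → 0 < frm h i w) ∧
          (sgv h v lam i = 0 → frm h i w < 0)} = {w | 0 < frm h i w} := by
        ext w
        simp only [Set.mem_ofPred_eq]
        exact ⟨fun h3 => (h3 hi).1 h5, fun h3 _ => ⟨fun _ => h3, fun h6 =>
          absurd (h5.symm.trans h6) (by decide)⟩⟩
      rw [h2]
      exact isOpen_lt continuous_const (continuous_frm h i)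
    · have h6 : sgv h v lam i = 0 := by
        have : ∀ a : Fin 2, a ≠ 1 → a = 0 := by decide
        exact this _ h5
      have h2 : {w : Fin p → ℝ | h i ≠ 0 → (sgv h v lam i = 1 → 0 < frm h i w) ∧
          (sgv h v lam i = 0 → frm h i w < 0)} = {w | frm h i w < 0} := by
        ext w
        simp only [Set.mem_ofPred_eq]
        exact ⟨fun h3 => (h3 hi).2 h6, fun h3 _ => ⟨fun h7 => absurd h7 h5, fun _ => h3⟩⟩
      rw [h2]
      exact isOpen_lt (continuous_frm h i) continuous_const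
  have hCell : ∀ z w : Fin p → ℝ, z ∈ C → w ∈ C → Cell h z w := by
    intro z w hz hw i
    change (0 ≤ frm h i z → 0 ≤ frm h i w) ∧ (frm h i z ≤ 0 → frm h i w ≤ 0)
    by_cases hi : h i = 0
    · have h4 : ∀ u, frm h i u = 0 := by
        intro u
        unfold frm
        rw [hi]
        exact Finset.sum_eq_zero fun k _ => by
          rw [Pi.zero_apply, Rat.cast_zero, mul_zero]
      rw [h4, h4]
      exact ⟨fun _ => le_rfl, fun _ => le_rfl⟩
    have h4 := hz i hi
    have h5 := hw i hi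
    by_cases h6 : sgv h v lam i = 1
    · exact ⟨fun _ => (h5.1 h6).le, fun h7 => absurd (h4.1 h6) (not_lt.2 h7)⟩
    · have h7 : sgv h v lam i = 0 := by
        have : ∀ a : Fin 2, a ≠ 1 → a = 0 := by decide
        exact this _ h6
      exact ⟨fun h8 => absurd (h4.2 h7) (not_lt.2 h8), fun _ => (h5.2 h7).le⟩
  have hxC : x ∈ C := hx1
  have hpx := hps x hx
  have hall : ∀ w ∈ C, (∀ i, 0 ≤ w i) ∧ PsefR N δ w := fun w hw =>
    ⟨(hcl x w hpx.1 hpx.2 (hCell x w hxC hw)).1, (hcl x w hpx.1 hpx.2 (hCell x w hxC hw)).2.1⟩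
  have hsm : ∀ y ∈ C, ∀ c : ℝ, 0 < c → c • y ∈ C := by
    intro y hy c hc i hi
    rw [frm_smul]
    exact ⟨fun h1 => mul_pos hc ((hy i hi).1 h1), fun h1 =>
      mul_neg_of_pos_of_neg hc ((hy i hi).2 h1)⟩
  have had : ∀ y ∈ C, ∀ z ∈ C, y + z ∈ C := by
    intro y hy z hz i hi
    rw [frm_add]
    exact ⟨fun h1 => add_pos ((hy i hi).1 h1) ((hz i hi).1 h1), fun h1 =>
      add_neg ((hy i hi).2 h1) ((hz i hi).2 h1)⟩
  have key : ∀ (P : Place ℂ K) (D : Fin N → Derivation ℂ K K), Adm N δ D →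
      ∃ s : (Fin p → ℝ) →ₗ[ℝ] ℝ, ∀ w ∈ C, AsOrd N δ P D w (s w) := by
    intro P D hD
    obtain ⟨σ, h1, h2, h3, -⟩ := hσ P D hD
    obtain ⟨s, hs⟩ := exists_linear hCo ⟨x, hxC⟩ hsm had
      (fun y hy c hc => h2 y c (hall y hy).1 (hall y hy).2 hc.le)
      (fun y hy z hz => h3 y y z (hall y hy).1 (hall y hy).2 (hCell y y hy hy) (hCell y z hy hz))
    refine ⟨s, fun w hw => ?_⟩
    rw [← hs w hw]
    exact h1 w (hall w hw).1 (hall w hw).2
  choose! s hs using key
  exact ⟨x, hx, s, fun P D hD => ⟨C, hCo.mem_nhds hxC, fun w hw =>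
    ⟨(hall w hw).1, (hall w hw).2, hs P D hD w hw⟩⟩⟩

end Pool.Agent.Q68.MF
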